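import Mathlib
import Pool.Agent.Y126.Glue
import Pool.Agent.R930.Three
import Pool.Agent.R930.Notions
import Pool.Agent.R930.SympOdd

/-!
# The Tate conjecture for all products of ordinary abelian varieties with real or quaternion
multiplication and odd relative dimension, over finitely generated fields

Let `A` be an abelian variety over a finitely generated field `k` of any characteristic, `ℓ` a prime
number different from it, `V = V_ℓ(A)` the rational Tate module with the action `ρ` of the Galois
group `Γ`, `b` a basis of the lattice `T_ℓ(A)`, `χ` the cyclotomic character and `ω` the Weil pairing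
of a polarization; `K` is the algebraic closure of `ℚ_ℓ` and `X = K ⊗ V`. By theorems of Zarhin, Mori
and Faltings `V` is semisimple, also over finite extensions of `k`, and the endomorphisms of `V`
which commute with the Galois group come from endomorphisms of `A`.

We suppose that the Frobenius elements with two slopes are dense in `Γ` (`IsTwoSlope`, see
`Pool/Agent/R930/Frob.lean` and `Pool/Agent/R930/Two.lean`): the reduction of `A` at the place, over a
finite field with `p ^ a` elements, has exactly the slopes `s` and `1 - s` with `s ≠ 1 / 2`, for instance
`0` and `1` (ordinary reduction). The prime number `p` and `s` may depend on the place. This holds if `k`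
has positive characteristic and `A` is ordinary (or if its Newton polygon has two slopes), as this is an
open condition on a model, and in characteristic zero if `A` has ordinary reduction at a set of places
of density one.

Suppose that all strongly irreducible subspaces `U` of `X` are symplectic and that the dimension of
`U` is `2` modulo `4`, or `4`.  This means: every simple factor `B` of `A` over the separable closure of
`k` is of type I or II in the classification of Albert (the endomorphism algebra is a totally real field
`F` or a totally indefinite quaternion algebra over such a field), and the relative dimension of `B`, that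
is `dim B / [F : ℚ]` or `dim B / (2 [F : ℚ])`, is odd or two; the dimension of `U` is twice the relative
dimension.  There is no condition on the number of the simple factors and on the fields `F`.

Then all Tate classes in the cohomology of all powers of `A` are linear combinations of products of
Tate classes of degree two, which are classes of divisors by the theorems above.  So the Tate
conjecture holds for all powers of `A`.

For one abelian variety over a number field, without nontrivial endomorphisms and of odd dimension, the
image of the Galois group was determined by Serre (1985), by means of the Hodge-Tate decomposition and the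
classification of minuscule representations; Banaszak, Gajda and Krason treated types I and II over
number fields.  Here the characteristic of `k` is arbitrary, only Frobenius elements at places of good
reduction outside `ℓ` are used, and the proof does not use the classification.

The proof.  By `Pool/Agent/R930/Two.lean` the elements `x` with `x ^ 2 = 1 / 4` obtained from the
`p`-adic absolute values of the eigenvalues of the Frobenius elements generate the Lie algebra `𝔤` of the
group, so that every piece `U` is irreducible under `𝔤`.  Consider the roots of `𝔤` on `U` that do not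
vanish on all elements `y`, `y ^ 2 = 1 / 4`, of a Cartan subalgebra containing `x`. The weights of `U` take
only the values `0`, `1` and `-1` at their coroots, and for different weights `l`, `m` there is a root `α`
with `l(α) = 1` and `m(α) = -1`. It follows that every weight `l` is half of a sum of strongly orthogonal
roots `α_1`, ..., `α_r`; the product of the lowering operators gives a bilinear form on the weight space,
which is alternating if `r` is even, so that then the multiplicity `d(l)` is even; and the number `N(l)` of
the roots `α` with `l(α) = 1` has the parity of `r`. So `d(l) N(l)` and `d(l)` have the same parity. If the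
dimension of `U` is `2` modulo `4`, summation over the weights and counting modulo `4` shows that for some
root `α` the rank of the root vector is odd (`Pool/Agent/R930/Comb.lean`). A square-zero element of odd
rank yields an element of rank one, so the image of `𝔤` contains all of `𝔰𝔭(U)`.
-/

namespace Pool.Agent.Results.MP_0fca13_ag.OddRelativeDimension

open Module TensorProduct Polynomial Pool.Agent.Y126.Notions Pool.Agent.R930
  Pool.Agent.R930.Notions

noncomputable section

/-- All strongly irreducible subspaces are symplectic, and their dimensions are two modulo four, or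
four. -/
def SymplecticPieces {K X Γ : Type} [Field K] [AddCommGroup X] [Module K X] [Group Γ]
    (R : Representation K Γ X) (χ : Γ →* K) : Prop :=
  ∀ U, StronglyIrreducible R U → IsSymplectic R χ U ∧ (finrank K U % 4 = 2 ∨ finrank K U = 4)

open Pool.Agent.H204R3.SP Pool.Agent.H204R3.GP Pool.Agent.W522.U

theorem result (ℓ : ℕ) [Fact ℓ.Prime] {V Γ : Type} [AddCommGroup V] [Module ℚ_[ℓ] V]
    [FiniteDimensional ℚ_[ℓ] V] [Group Γ] [TopologicalSpace Γ] [IsTopologicalGroup Γ]
    (ρ : Representation ℚ_[ℓ] Γ V) (χ : Γ →* ℚ_[ℓ])
    (ω : V →ₗ[ℚ_[ℓ]] V →ₗ[ℚ_[ℓ]] ℚ_[ℓ]) (halt : ∀ v, ω v v = 0)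
    (hnondeg : ∀ u, (∀ v, ω v u = 0) → u = 0)
    (hω : ∀ s u v, ω (ρ s u) (ρ s v) = χ s * ω u v)
    (hsemisimple : PotentiallySemisimple ρ)
    {n : ℕ} (b : Basis (Fin n) ℚ_[ℓ] V)
    (hintegral : ∀ g i j, ‖LinearMap.toMatrix b b (ρ g) i j‖ ≤ 1)
    (hcontinuous : ∀ i j, Continuous fun g => LinearMap.toMatrix b b (ρ g) i j)
    (hfrobenius : Dense {γ | IsTwoSlope ρ χ γ})
    (hpieces : SymplecticPieces (extend (AlgebraicClosure ℚ_[ℓ]) ρ)
      ((algebraMap ℚ_[ℓ] (AlgebraicClosure ℚ_[ℓ]) : ℚ_[ℓ] →* _).comp χ)) :
    GeneratedInDegreeTwo ρ χ := by
  have hl1 : ∀ u, (∀ v, bcb (AlgebraicClosure ℚ_[ℓ]) ω u v = 0) → u = 0 := fun u hu =>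
    bcb_nondeg_left ω hnondeg (left_nondeg ω halt hnondeg) u hu
  have hinv := bcb_inv (Ω := AlgebraicClosure ℚ_[ℓ]) ρ χ ω hω
  have hpr : HasProj (bcr ρ (AlgebraicClosure ℚ_[ℓ])) := hasProj_bcr ρ _ hsemisimple
  have hweak := weakGenerate_of_dense hintegral hcontinuous hfrobenius
  have hlines : NoSelfDualLines (extend (AlgebraicClosure ℚ_[ℓ]) ρ)
      ((algebraMap ℚ_[ℓ] (AlgebraicClosure ℚ_[ℓ]) : ℚ_[ℓ] →* _).comp χ) := fun U hU h1 =>
    no_self_dual hcontinuous (bcb _ ω) hl1 hinv hfrobenius hU h1
  have hdual : ∀ U, StronglyIrreducible (extend (AlgebraicClosure ℚ_[ℓ]) ρ) U →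
      AreDual (extend (AlgebraicClosure ℚ_[ℓ]) ρ)
        ((algebraMap ℚ_[ℓ] (AlgebraicClosure ℚ_[ℓ]) : ℚ_[ℓ] →* _).comp χ) U U := by
    intro U hU
    obtain ⟨Δ, hΔ, B, h0, -, hB⟩ := (hpieces U hU).1
    exact ⟨Δ, hΔ, B, h0, hB⟩
  refine (Pool.Agent.Y126.Glue.conclusion ℓ ρ χ ω halt hnondeg hω hsemisimple ?_ hlines ?_).2 ?_
  · intro U hU h2
    obtain ⟨hs, h | h⟩ := hpieces U hU
    · exact one_of_symp_odd (bcb _ ω) hl1 hinv hpr hU hweak hs h
    · exact one_of_symp' (bcb _ ω) hl1 hinv hpr hU hweak hs (Or.inl h)
  · intro U U' hU hU' h2 hd ψ hψ
    exact absurd (hdual U hU) hd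
  · intro Q _ hQ L hL
    obtain ⟨q⟩ := hQ
    exact hL.2.1 q q (hdual (L q) (hL.1 q))

end

end Pool.Agent.Results.MP_0fca13_ag.OddRelativeDimension
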