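import Pool.Agent.R920.CD.Tate

/-!
# The Tate conjecture from one closed fibre

Let `T → B` be a morphism of smooth projective varieties over a finitely generated field `k₀`, with
a smooth generic fibre `X` of dimension `n`, over the function field `K` of `B`. Let `Y` be the
fibre over ONE rational point of `B`, over which the morphism is smooth. Suppose that numerically
trivial cycles of dimension `n - j` and of dimension `j` on the total space `T` are homologically
trivial (conjecture D). If all Galois invariant classes of codimension `j` on the closed fibre `Y`
are algebraic, then the Tate conjecture in the strong form (finite generation, injectivity and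
surjectivity) is true for the cycles of codimension `j` on the generic fibre `X`.

The proof. A Galois invariant class `a` on `X` extends to a class on `T` (Deligne's theorem on
global invariant cycles). It specialises to a Galois invariant class on `Y`, which is algebraic by
assumption; so the product of (the extension of) `a` and the class of a fibre is algebraic
on `T`. By the conjecture D, the intersection numbers of `a` with algebraic classes on `X` are
those of a combination `c` of algebraic classes; the product of `a - c` with the class of a fibre
is algebraic and numerically trivial on `T`, so that it is homologically trivial; and then `a - c`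
is orthogonal to all monodromy invariant classes, and `a = c`, since the monodromy is semisimple.
-/

set_option autoImplicit false

open Pool.Agent.R920.CD

namespace Pool.Agent.Results.MP_0fca13_ag.OneClosedFibre

universe u v w

/-- If the conjecture D is true for the cycles of dimension `m` and `j` on the total space, where
`j + m` is the dimension of the fibres, and if the Galois invariant classes of codimension `j` on
one closed fibre `Y` are algebraic, then the Tate conjecture is true for the cycles of
codimension `j` on the generic fibre `X`. -/
theorem result {E : Type u} [Field E] [CharZero E] {A A' A'' : Type v}
    [CommRing A] [Algebra E A] [FiniteDimensional E A] [CommRing A'] [Algebra E A']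
    [CommRing A''] [Algebra E A''] {T : Coh E A'} {X : Coh E A} {Y : Coh E A''}
    {Γ : Type w} [Group Γ] {μ : Monodromy X Γ} {r : ℕ} {G : GenericFibre T X μ r}
    (C : ClosedFibre G Y) {Gal Gal' : Type w} [Group Gal] [Group Gal'] {ρ : Gal →* (A ≃ₐ[E] A)}
    {ρ' : Gal' →* (A'' ≃ₐ[E] A'')} (g : GaloisActions C ρ ρ') (hT : T.Integral)
    {j m : ℕ} (h : j + m = X.dim) (hDm : T.D m) (hDj : T.D j) (hY : Y.Surj ρ' j) :
    X.Tate ρ j :=
  tate_of_closedFibre C hT h hDm hDj g hY

end Pool.Agent.Results.MP_0fca13_ag.OneClosedFibre
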