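import Pool.Agent.R914.UG.Fin

/-!
# The Tate conjecture for all powers of a variety follows from one explicit power

Let `X` be an **arbitrary** smooth projective variety over a finitely generated field `k₀` of
characteristic zero, `d` its dimension, `b` the sum of its Betti numbers, and `ℓ` a prime number. Put

`N = 2 (b ^ 2 + 1) ((4 d b! + 1) (b ^ 2 + 1)) ^ (b ^ 2)`.

**Theorem.** If the Galois representation `H(X ^ N, ℚ_ℓ)` is semisimple and the Tate conjecture
holds for the single variety `X ^ N` (over all finite extensions of `k₀`), then the Tate conjecture
holds for all the powers `X ^ (n + 1)` (over all finite extensions of `k₀`).

So the Tate conjecture for the infinitely many varieties `X`, `X ^ 2`, `X ^ 3`, ..., of unbounded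
dimension and in all codimensions, is the question whether finitely many explicit classes (a basis of
the Tate classes on `X ^ N`) are algebraic, and the number `N` depends only on `b` and `d`: it is
the same for all varieties of a family, for all fields and for all prime numbers `ℓ`. Nothing is
assumed on the algebraic monodromy group or the Mumford-Tate group of `X`, and no standard conjecture
is used. (For a product `X = X_1 × ... × X_r` one gets all the products of powers of the `X_i`, since
these are retracts of the powers of `X`. For abelian varieties and for products of curves the
semisimplicity is known, by Faltings.)

Setting. We embed `k₀` into the field of complex numbers. A Hodge theory `T` is a Weil cohomology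
theory with rational coefficients and a Hodge decomposition (`HodgeTheory` in the file
`Pool.Agent.Y121.AHS.Defs`); in the intended use it is the singular cohomology with rational
coefficients of the smooth projective complex varieties, and `NonnegTypes` and `HodgeSymmetric`
are classical. We choose an isomorphism between the field of complex numbers and an algebraic closure
of the field `ℚ_ℓ`. Then the absolute Galois group `Γ` of `k₀` acts on the cohomology with complex
coefficients of the powers of `X` by transport from the étale cohomology (`GaloisAction`: linear,
multiplicative, preserving degrees, commuting with pull-backs under projections, acting on the
orientation by the power `dim X` of the Tate twist `χ`, and on the class of an algebraic cycle of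
codimension `j` by `χ ^ j` after restriction to a subgroup of finite index).

* A Tate class of degree `2 j` is a class `x` of degree `2 j` with `g x = χ(g) ^ j x` for all `g` in a
  subgroup of finite index (`IsTate`), and `TateConj G n` says that all Tate classes on
  `X ^ (n + 1)` are linear combinations of classes of algebraic cycles. Averaging over a finite
  Galois group one gets the statement over `k₀` and its finite extensions. (The cycles on complex
  varieties have the same classes as those on varieties over the algebraic closure of `k₀`.)
* `Chebotarev G`: a function in the algebra generated by the matrix coefficients of the representation
  `H(X)` and the Tate twist which vanishes at the elements of a subgroup `Δ` of finite index which act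
  like Frobenius elements (`IsFrobenius`: the Tate twist is a prime number `p`, and the
  eigenvalues in degree `i` are the roots of a monic polynomial with integral coefficients, of
  absolute value `p ^ (i / 2)`) vanishes on `Δ`. This follows from the density of the Frobenius
  elements at closed points with prime residue field of a model of `X` (Chebotarev), and from the
  theorem of Deligne on the eigenvalues of Frobenius. (Only the image of the Galois group in the
  group of automorphisms of `H(X)` and the Tate twist matters, a compact `ℓ`-adic Lie group, in which
  subgroups of finite index are open.)
* `IsPolarised G`: the polarisation of the Hodge structure `H(X)` given by an ample divisor (over `k₀`),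
  the Lefschetz decomposition and the cup product is compatible with the Galois action.

The proof. For every element `F` of `Γ` which acts like a Frobenius element, for the prime number `p`,
and every embedding `ψ` of the field generated by the eigenvalues into an algebraic closure of
`ℚ_p`, the slopes of the eigenvalues (normalised valuations, shifted by half the degree, and
multiplied by `2 b!`) define a curve `z ↦ P diag(z ^ r_1, ..., z ^ r_b) P⁻¹` of degree at most
`2 d b!` in the matrices, where `P` consists of generalised eigenvectors of `F` (Frobenius tori). Let
`𝒢` be the group generated by these curves. It is normalised by `Γ`, and all stable subspaces of
tensor spaces for `Γ` are stable for `𝒢`; so the tensor spaces are semisimple for `𝒢`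
(Clifford). A tensor which is fixed by `𝒢` has vanishing slopes at all primes dividing `p`, and is of
weight zero after a twist, so the eigenvalues of the Frobenius elements on the space of all these
tensors are roots of unity, of bounded order, up to the twist; by the theorems of Chebotarev and
Burnside a subgroup of finite index acts by the twist. So the tensors fixed by `𝒢` are
exactly the Tate classes (those of odd degree vanish). Counting dimensions of spaces of polynomials
(a coarse form of the theorem of Bézout) shows that the ideal of the Zariski closure of `𝒢` is
determined by the polynomials of degree at most `D = N / 2`, and for these one can use the double
commutant theorem in the spaces `V^⊗m`, `m ≤ D`, `V = H(X, ℂ)`; the commutant is given by Tate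
classes on `X ^ (2 m)`, which are algebraic by assumption. On the other hand the tensors coming from
algebraic classes are stable under products, permutations of the factors, contractions and complex
conjugation, and the polarisation is given by an algebraic class, since it is given by a Tate
class. Positivity and the theorem of Hilbert on the zeros of ideals show that this system of
tensors is the system of all invariants of its stabiliser `H`; and the comparison of the ideals shows
that `H` has no more elements than the Zariski closure of `𝒢`.
-/

open CategoryTheory AlgebraicGeometry

universe u

namespace Pool.Agent.Results.MP_0fca13_ag.OnePowerSuffices

open Pool.Agent.H914 Pool.Agent.H914.VarClass Pool.Agent.H914.VarClass.Obj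
  Pool.Agent.H914.WeilCohomology Pool.Agent.Y121.AHS Pool.Agent.R940 Pool.Agent.R914.UN
  Pool.Agent.R914.UG
open Pool.Agent.Y163 (pw)

theorem result {k : Type u} [Field k] {𝒱 : VarClass k} {ops : CycleOps 𝒱} (T : HodgeTheory ops)
    (hT : NonnegTypes T) (X : 𝒱.Obj) (hX : HodgeSymmetric T X) {Γ : Type} [Group Γ]
    (G : GaloisAction T X Γ) (hC : Chebotarev G) (hP : IsPolarised G) (N : ℕ)
    (hN : N = galBound (totBetti T X) X.dim) (hS : IsSemisimple G (N - 1))
    (hTC : TateConj G (N - 1)) (n : ℕ) : TateConj G n := by
  subst hN
  exact tate_main G hT hX hC hP hS hTC n

end Pool.Agent.Results.MP_0fca13_ag.OnePowerSuffices
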