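import Mathlib
import Pool.Agent.Y126.Glue
import Pool.Agent.R930.Three
import Pool.Agent.R930.Notions

/-!
# Tate classes on all powers of abelian varieties over finitely generated fields of arbitrary
characteristic whose reductions have two slopes, for instance of ordinary abelian varieties over
global function fields

Let `A` be an abelian variety over a finitely generated field `k` of any characteristic, `ℓ` a prime
number different from it, `V = V_ℓ(A)` the rational Tate module with the action `ρ` of the Galois
group `Γ`, `b` a basis of the lattice `T_ℓ(A)`, `χ` the cyclotomic character and `ω` the Weil pairing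
of a polarization; `K` is the algebraic closure of `ℚ_ℓ` and `X = K ⊗ V`. By theorems of Zarhin, Mori
and Faltings `V` is semisimple, also over finite extensions of `k`, and the endomorphisms of `V`
which commute with the Galois group come from endomorphisms of `A`.

We suppose that the Frobenius elements with two slopes are dense in `Γ` (`IsTwoSlope`, see
`Pool/Agent/R930/Frob.lean` and `Pool/Agent/R930/Two.lean`; the conditions on pieces are
in `Pool/Agent/R930/Notions.lean`): the reduction of `A` at the place, over a
finite field with `p ^ a` elements, has exactly the slopes `s` and `1 - s` with `s ≠ 1 / 2`, for instance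
`0` and `1` (ordinary reduction). The prime number `p` and `s` may depend on the place. By the theorem
of Chebotarev this holds if the set of places with two slopes has density one; if `k` has positive
characteristic and `A` is ordinary (or if its Newton polygon has two slopes) this is the case, as
these are open conditions on a model. So all ordinary abelian varieties over function fields are
covered, with good pieces as follows. In characteristic zero `A` is supposed to have ordinary
reduction at a set of places of density one.

Suppose that every strongly irreducible subspace `U` of `X` of dimension at least two is a good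
piece (`IsGoodPiece`):

* the dimension of `U` is a prime number; or
* for ONE Frobenius element with two slopes and one embedding of its eigenvalues in the algebraic
  closure of `ℚ_p` the multiplicity of a slope on `U` is prime to the dimension of `U`; or
* `U` is symplectic (this is so for all `U` if `A` has real or quaternion multiplication of type I or
  II) and has dimension `4`, `6` or `10`; or for one Frobenius element and two embeddings exactly
  one eigenvalue on `U` has prescribed slopes with respect to both embeddings (or there is one
  Frobenius element with three slopes `s`, `1 / 2`, `1 - s` such that `s` is simple on `U` for some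
  embedding); or there is an element `γ` of the group with `(γ - 1) ^ 2 = 0` and odd rank of `γ - 1`
  on `U` (a place of semistable reduction with odd toric rank on `U`).

Moreover suppose, for those `U` which are not self-dual, that both slopes occur on `U` for all
embeddings and for a dense set of Frobenius elements with two slopes, or that `U` is isomorphic to
all its twists which occur in `X`.

Then all Tate classes on all powers of `A` are linear combinations of products of Tate classes of
degree two (divisor classes by the theorems above) and of Weil classes; and of products of Tate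
classes of degree two only if there are no Weil families, for instance if all `U` are self-dual.

Examples: `A` ordinary over a global function field, `A` without nontrivial endomorphisms over the
separable closure, of dimension 2, 3 or 5, or of any dimension with a place of odd toric rank, or a
product of powers of any number of such abelian varieties, of elliptic curves, and of abelian
varieties with real multiplication by a field `F` and dimension `[F : ℚ]`, `2 [F : ℚ]`, `3 [F : ℚ]` or
`5 [F : ℚ]`.

The proof.  Additive functions on the group generated by the eigenvalues of a Frobenius element,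
obtained from `p`-adic absolute values, give elements `x` of `𝔤` with `x ^ 2 = 1 / 4`. An operator which
commutes with all these elements, for all embeddings, commutes with the Frobenius element if it
is congruent to one modulo `ℓ ^ 2`: an eigenvalue quotient all of whose absolute values are one is a
root of unity (Kronecker), and such a quotient is one. By continuity the weak Hodge
elements generate (an operator which commutes with all of them commutes with a subgroup of finite
index), and there are no self-dual lines. On a piece
`U` the trace form and the Casimir element of the Lie algebra, graded by an element `x` with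
eigenvalue multiplicities `m` and `n`, give for an element of minimal rank `r` of degree one the
equation `m n (2 + k) = d r (m + n)` with `k + 2 r ≤ m + n`; if `m` and `n` are coprime this implies `r = 1`,
without the classification of simple Lie algebras.
-/

namespace Pool.Agent.Results.MP_0fca13_ag.TwoSlopesEverywhere

open Module TensorProduct Polynomial Pool.Agent.Y126.Notions Pool.Agent.R930
  Pool.Agent.R930.Notions

noncomputable section

/-- The good pieces, see the description above. -/
def IsGoodPiece {K X Γ : Type} [Field K] [CharZero K] [AddCommGroup X] [Module K X] [Group Γ]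
    (R : Representation K Γ X) (χ : Γ →* K) (F : Γ → ℕ → ℕ → ℤ[X] → Prop) (U : Submodule K X) :
    Prop :=
  (finrank K U).Prime ∨ CoprimeSlopes R F U ∨ (IsSymplectic R χ U ∧ (finrank K U = 4 ∨
    finrank K U = 6 ∨ finrank K U = 10 ∨ SimpleSlope R F U ∨ ∃ γ : Γ, OddUnipotent R U γ))

/-- All strongly irreducible subspaces of dimension at least two are good pieces; and if such a
subspace `U` is not self-dual, then for a dense set of Frobenius elements with two slopes both slopes
occur on `U` for all embeddings, or the twists of `U` which occur as subspaces are isomorphic to `U`. -/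
def OnlyGoodPieces {K X Γ : Type} [Field K] [CharZero K] [AddCommGroup X] [Module K X] [Group Γ]
    [TopologicalSpace Γ] (R : Representation K Γ X) (χ : Γ →* K)
    (F : Γ → ℕ → ℕ → ℤ[X] → Prop) : Prop :=
  ∀ U, StronglyIrreducible R U → 2 ≤ finrank K U → IsGoodPiece R χ F U ∧
    (¬AreDual R χ U U → Dense {γ | BothSlopes R F U γ} ∨ TwistsTrivial R U)

open Pool.Agent.H204R3.SP Pool.Agent.H204R3.GP Pool.Agent.W522.U

theorem result (ℓ : ℕ) [Fact ℓ.Prime] {V Γ : Type} [AddCommGroup V] [Module ℚ_[ℓ] V]
    [FiniteDimensional ℚ_[ℓ] V] [Group Γ] [TopologicalSpace Γ] [IsTopologicalGroup Γ]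
    (ρ : Representation ℚ_[ℓ] Γ V) (χ : Γ →* ℚ_[ℓ])
    (ω : V →ₗ[ℚ_[ℓ]] V →ₗ[ℚ_[ℓ]] ℚ_[ℓ]) (halt : ∀ v, ω v v = 0)
    (hnondeg : ∀ u, (∀ v, ω v u = 0) → u = 0)
    (hω : ∀ s u v, ω (ρ s u) (ρ s v) = χ s * ω u v)
    (hsemisimple : PotentiallySemisimple ρ)
    {n : ℕ} (b : Basis (Fin n) ℚ_[ℓ] V)
    (hintegral : ∀ g i j, ‖LinearMap.toMatrix b b (ρ g) i j‖ ≤ 1)
    (hcontinuous : ∀ i j, Continuous fun g => LinearMap.toMatrix b b (ρ g) i j)
    (hfrobenius : Dense {γ | IsTwoSlope ρ χ γ})
    (hpieces : OnlyGoodPieces (extend (AlgebraicClosure ℚ_[ℓ]) ρ)
      ((algebraMap ℚ_[ℓ] (AlgebraicClosure ℚ_[ℓ]) : ℚ_[ℓ] →* _).comp χ) (IsFrobenius ρ χ)) :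
    GeneratedByWeilClasses (AlgebraicClosure ℚ_[ℓ]) ρ χ ω ∧
    (NoWeilFamilies (extend (AlgebraicClosure ℚ_[ℓ]) ρ)
      ((algebraMap ℚ_[ℓ] (AlgebraicClosure ℚ_[ℓ]) : ℚ_[ℓ] →* _).comp χ) →
      GeneratedInDegreeTwo ρ χ) := by
  have hl1 : ∀ u, (∀ v, bcb (AlgebraicClosure ℚ_[ℓ]) ω u v = 0) → u = 0 := fun u hu =>
    bcb_nondeg_left ω hnondeg (left_nondeg ω halt hnondeg) u hu
  have hinv := bcb_inv (Ω := AlgebraicClosure ℚ_[ℓ]) ρ χ ω hω
  have hpr : HasProj (bcr ρ (AlgebraicClosure ℚ_[ℓ])) := hasProj_bcr ρ _ hsemisimple
  have hweak := weakGenerate_of_dense hintegral hcontinuous hfrobenius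
  have hlie : LieGenerate (bcr ρ (AlgebraicClosure ℚ_[ℓ])) (bcc χ (AlgebraicClosure ℚ_[ℓ])) :=
    LieGenerate.of_weak hweak
  have hlines : NoSelfDualLines (extend (AlgebraicClosure ℚ_[ℓ]) ρ)
      ((algebraMap ℚ_[ℓ] (AlgebraicClosure ℚ_[ℓ]) : ℚ_[ℓ] →* _).comp χ) := fun U hU h1 =>
    no_self_dual hcontinuous (bcb _ ω) hl1 hinv hfrobenius hU h1
  refine Pool.Agent.Y126.Glue.conclusion ℓ ρ χ ω halt hnondeg hω hsemisimple ?_ hlines ?_
  · intro U hU h2
    rcases (hpieces U hU h2).1 with hprime | hcop | ⟨hs, h | h | h | h | ⟨γ, hγ, hodd⟩⟩
    · exact one_of_prime (bcb _ ω) hl1 hinv hpr hU hweak hprime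
    · exact one_of_slopes (bcb _ ω) hl1 hinv hpr hlie hU h2 (hasCoprime hcop)
    · exact one_of_symp' (bcb _ ω) hl1 hinv hpr hU hweak hs (Or.inl h)
    · exact one_of_symp' (bcb _ ω) hl1 hinv hpr hU hweak hs (Or.inr (Or.inl h))
    · exact one_of_symp' (bcb _ ω) hl1 hinv hpr hU hweak hs (Or.inr (Or.inr h))
    · exact one_of_simple (bcb _ ω) hl1 hinv hpr hlie hU hs (hasSimple h)
    · exact Pool.Agent.Y126.Toric.one_of_alt (bcb _ ω) hl1 hinv hpr hU hs hγ (Or.inl rfl)
        (Or.inr ⟨hodd, hweak⟩)
  · intro U U' hU hU' h2 hd ψ hψ
    rcases (hpieces U hU h2).2 hd with h | h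
    · exact twist_trivial hintegral hcontinuous hU h hψ
    · exact h U' hU' ψ hψ

end

end Pool.Agent.Results.MP_0fca13_ag.TwoSlopesEverywhere
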